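import Pool.Agent.helper15.FH.Defs

set_option autoImplicit false

/-!
# The semiring of finite graphs up to homomorphic equivalence (MP_8af768_co, module fh:S2)
-/

namespace Pool.Agent.helper46.FH

open Pool.Agent.helper15.FH

theorem hom_mk {A B : FinGraph} (f : A.V → B.V)
    (h : ∀ p q, A.G.Adj p q → B.G.Adj (f p) (f q)) : Hom A B := ⟨⟨f, fun {p q} => h p q⟩⟩

theorem hom_fun {A B : FinGraph} (h : Hom A B) :
    ∃ f : A.V → B.V, ∀ p q, A.G.Adj p q → B.G.Adj (f p) (f q) := by
  obtain ⟨f⟩ := h
  exact ⟨f, fun _ _ h => f.map_rel h⟩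

theorem hom_refl (A : FinGraph) : Hom A A := hom_mk id fun _ _ h => h

theorem hom_trans {A B C : FinGraph} (h : Hom A B) (h' : Hom B C) : Hom A C := by
  obtain ⟨f, hf⟩ := hom_fun h
  obtain ⟨g, hg⟩ := hom_fun h'
  exact hom_mk (fun x => g (f x)) fun p q h => hg _ _ (hf _ _ h)

theorem hom_join {A A' B B' : FinGraph} (h : Hom A A') (h' : Hom B B') :
    Hom (join A B) (join A' B') := by
  obtain ⟨f, hf⟩ := hom_fun h
  obtain ⟨g, hg⟩ := hom_fun h'
  refine hom_mk (Sum.map f g) ?_
  rintro (a | b) (a' | b') h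
  · exact hf _ _ h
  · trivial
  · trivial
  · exact hg _ _ h

theorem hom_disj {A A' B B' : FinGraph} (h : Hom A A') (h' : Hom B B') :
    Hom (disj A B) (disj A' B') := by
  obtain ⟨f, hf⟩ := hom_fun h
  obtain ⟨g, hg⟩ := hom_fun h'
  refine hom_mk (Prod.map f g) ?_
  rintro ⟨a, b⟩ ⟨a', b'⟩ (h | h)
  · exact Or.inl (hf _ _ h)
  · exact Or.inr (hg _ _ h)

/-- homomorphic equivalence -/
instance sd : Setoid FinGraph where
  r A B := Hom A B ∧ Hom B A
  iseqv := ⟨fun A => ⟨hom_refl A, hom_refl A⟩, fun h => ⟨h.2, h.1⟩,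
    fun h h' => ⟨hom_trans h.1 h'.1, hom_trans h'.2 h.2⟩⟩

/-- the classes of finite graphs up to homomorphic equivalence -/
def GS : Type 1 := Quotient sd

/-- the class of a graph -/
def cl (A : FinGraph) : GS := Quotient.mk sd A

theorem cl_eq {A B : FinGraph} (h : Hom A B) (h' : Hom B A) : cl A = cl B :=
  Quotient.sound ⟨h, h'⟩

theorem cl_eq_iff {A B : FinGraph} : cl A = cl B ↔ Hom A B ∧ Hom B A :=
  ⟨fun h => Quotient.exact h, fun h => Quotient.sound h⟩

theorem cl_ind {P : GS → Prop} (h : ∀ A, P (cl A)) (a : GS) : P a := Quotient.ind h a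

instance : Add GS := ⟨Quotient.map₂ join fun _ _ h _ _ h' =>
  ⟨hom_join h.1 h'.1, hom_join h.2 h'.2⟩⟩

instance : Mul GS := ⟨Quotient.map₂ disj fun _ _ h _ _ h' =>
  ⟨hom_disj h.1 h'.1, hom_disj h.2 h'.2⟩⟩

instance : Zero GS := ⟨cl (complete 0)⟩

instance : One GS := ⟨cl (complete 1)⟩

theorem cl_add (A B : FinGraph) : cl A + cl B = cl (join A B) := rfl

theorem cl_mul (A B : FinGraph) : cl A * cl B = cl (disj A B) := rfl

theorem zero_def : (0 : GS) = cl (complete 0) := rfl

theorem one_def : (1 : GS) = cl (complete 1) := rfl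

theorem cadj {n : ℕ} {a b : Fin n} : (complete n).G.Adj a b ↔ a ≠ b := SimpleGraph.top_adj a b

theorem no_vertex (x : (complete 0).V) : False := Fin.elim0 (show Fin 0 from x)

theorem no_edge {x y : (complete 1).V} (h : (complete 1).G.Adj x y) : False :=
  cadj.1 h (Subsingleton.elim (α := Fin 1) x y)

theorem add_assoc' (a b c : GS) : a + b + c = a + (b + c) := by
  induction a using cl_ind with | _ A => ?_
  induction b using cl_ind with | _ B => ?_
  induction c using cl_ind with | _ C => ?_
  rw [cl_add, cl_add, cl_add, cl_add]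
  refine cl_eq (hom_mk (Equiv.sumAssoc _ _ _) ?_) (hom_mk (Equiv.sumAssoc _ _ _).symm ?_)
  · rintro ((a | b) | c) ((a' | b') | c') h
    all_goals exact h
  · rintro (a | (b | c)) (a' | (b' | c')) h
    all_goals exact h

theorem add_comm' (a b : GS) : a + b = b + a := by
  induction a using cl_ind with | _ A => ?_
  induction b using cl_ind with | _ B => ?_
  rw [cl_add, cl_add]
  refine cl_eq (hom_mk Sum.swap ?_) (hom_mk Sum.swap ?_)
  · rintro (a | b) (a' | b') h
    all_goals exact h
  · rintro (a | b) (a' | b') h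
    all_goals exact h

theorem zero_add' (a : GS) : 0 + a = a := by
  induction a using cl_ind with | _ A => ?_
  rw [zero_def, cl_add]
  refine cl_eq (hom_mk (Sum.elim (fun x => (no_vertex x).elim) id) ?_) (hom_mk Sum.inr ?_)
  · rintro (x | a) (x' | a') h
    · exact (no_vertex x).elim
    · exact (no_vertex x).elim
    · exact (no_vertex x').elim
    · exact h
  · intro p q h
    exact h

theorem mul_assoc' (a b c : GS) : a * b * c = a * (b * c) := by
  induction a using cl_ind with | _ A => ?_
  induction b using cl_ind with | _ B => ?_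
  induction c using cl_ind with | _ C => ?_
  rw [cl_mul, cl_mul, cl_mul, cl_mul]
  refine cl_eq (hom_mk (Equiv.prodAssoc _ _ _) ?_) (hom_mk (Equiv.prodAssoc _ _ _).symm ?_)
  · rintro p q ((h | h) | h)
    · exact Or.inl h
    · exact Or.inr (Or.inl h)
    · exact Or.inr (Or.inr h)
  · rintro p q (h | (h | h))
    · exact Or.inl (Or.inl h)
    · exact Or.inl (Or.inr h)
    · exact Or.inr h

theorem mul_comm' (a b : GS) : a * b = b * a := by
  induction a using cl_ind with | _ A => ?_
  induction b using cl_ind with | _ B => ?_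
  rw [cl_mul, cl_mul]
  exact cl_eq (hom_mk Prod.swap fun p q h => Or.symm h) (hom_mk Prod.swap fun p q h => Or.symm h)

theorem one_mul' (a : GS) : 1 * a = a := by
  induction a using cl_ind with | _ A => ?_
  rw [one_def, cl_mul]
  refine cl_eq (hom_mk Prod.snd ?_) (hom_mk (fun x => ((0 : Fin 1), x)) fun p q h => Or.inr h)
  rintro p q (h | h)
  · exact (no_edge h).elim
  · exact h

theorem zero_mul' (a : GS) : 0 * a = 0 := by
  induction a using cl_ind with | _ A => ?_
  rw [zero_def, cl_mul]
  exact cl_eq (hom_mk (fun x => (no_vertex x.1).elim) fun p => (no_vertex p.1).elim)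
    (hom_mk (fun x => (no_vertex x).elim) fun p => (no_vertex p).elim)

theorem left_distrib' (a b c : GS) : a * (b + c) = a * b + a * c := by
  induction a using cl_ind with | _ A => ?_
  induction b using cl_ind with | _ B => ?_
  induction c using cl_ind with | _ C => ?_
  rw [cl_add, cl_mul, cl_mul, cl_mul, cl_add]
  refine cl_eq (hom_mk (Equiv.prodSumDistrib _ _ _) ?_)
    (hom_mk (Equiv.prodSumDistrib _ _ _).symm ?_)
  · rintro ⟨a, b | c⟩ ⟨a', b' | c'⟩ h
    · exact h
    · trivial
    · trivial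
    · exact h
  · rintro (⟨a, b⟩ | ⟨a, c⟩) (⟨a', b'⟩ | ⟨a', c'⟩) h
    · exact h
    · exact Or.inr trivial
    · exact Or.inr trivial
    · exact h

instance : CommSemiring GS where
  add := (· + ·)
  add_assoc := add_assoc'
  zero := 0
  zero_add := zero_add'
  add_zero a := by rw [add_comm', zero_add']
  add_comm := add_comm'
  nsmul := nsmulRec
  mul := (· * ·)
  mul_assoc := mul_assoc'
  one := 1
  one_mul := one_mul'
  mul_one a := by rw [mul_comm', one_mul']
  mul_comm := mul_comm'
  zero_mul := zero_mul'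
  mul_zero a := by rw [mul_comm', zero_mul']
  left_distrib := left_distrib'
  right_distrib a b c := by rw [mul_comm', left_distrib', mul_comm' c a, mul_comm' c b]

theorem cl_complete (n : ℕ) : cl (complete n) = (n : GS) := by
  induction n with
  | zero => rw [Nat.cast_zero]; rfl
  | succ n ih =>
    rw [Nat.cast_succ, ← ih, one_def, cl_add]
    refine cl_eq (hom_mk (finSumFinEquiv (m := n) (n := 1)).symm ?_)
      (hom_mk (finSumFinEquiv (m := n) (n := 1)) ?_)
    · intro p q h
      have h1 : (finSumFinEquiv (m := n) (n := 1)).symm p ≠ finSumFinEquiv.symm q := fun h2 =>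
        cadj.1 h (Equiv.injective _ h2)
      generalize (finSumFinEquiv (m := n) (n := 1)).symm p = a at h1
      generalize (finSumFinEquiv (m := n) (n := 1)).symm q = b at h1
      rcases a with a | a <;> rcases b with b | b
      · exact cadj.2 fun h2 => h1 (by rw [h2])
      · trivial
      · trivial
      · exact (h1 (by rw [Subsingleton.elim a b])).elim
    · intro p q h
      refine cadj.2 fun h2 => ?_
      have h3 := Equiv.injective _ h2
      rw [h3] at h
      exact SimpleGraph.irrefl _ h

theorem cl_pw (A : FinGraph) (N : ℕ) : cl A ^ N = cl (pw A N) := by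
  induction N with
  | zero =>
    rw [pow_zero, one_def]
    refine cl_eq (hom_mk (fun _ => (Fin.elim0 : Fin 0 → A.V)) fun p q h => (no_edge h).elim)
      (hom_mk (fun _ => (0 : Fin 1)) ?_)
    rintro p q ⟨k, -⟩
    exact Fin.elim0 k
  | succ N ih =>
    rw [pow_succ, ih, cl_mul]
    refine cl_eq (hom_mk (fun p => (Fin.snoc (α := fun _ => A.V) p.1 p.2 : Fin (N + 1) → A.V)) ?_)
      (hom_mk (fun p => ((fun k => p (Fin.castSucc k)), p (Fin.last N))) ?_)
    · rintro p q (⟨k, h⟩ | h)
      · refine ⟨Fin.castSucc k, ?_⟩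
        change A.G.Adj (Fin.snoc (α := fun _ => A.V) p.1 p.2 (Fin.castSucc k))
          (Fin.snoc (α := fun _ => A.V) q.1 q.2 (Fin.castSucc k))
        rw [Fin.snoc_castSucc, Fin.snoc_castSucc]
        exact h
      · refine ⟨Fin.last N, ?_⟩
        change A.G.Adj (Fin.snoc (α := fun _ => A.V) p.1 p.2 (Fin.last N))
          (Fin.snoc (α := fun _ => A.V) q.1 q.2 (Fin.last N))
        rw [Fin.snoc_last, Fin.snoc_last]
        exact h
    · rintro p q ⟨k, h⟩
      induction k using Fin.lastCases with
      | last => exact Or.inr h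
      | cast k => exact Or.inl ⟨k, h⟩

/-- the order of the semiring -/
def le (a b : GS) : Prop := Quotient.liftOn₂ a b Hom fun _ _ _ _ h h' =>
  propext ⟨fun x => hom_trans h.2 (hom_trans x h'.1), fun x => hom_trans h.1 (hom_trans x h'.2)⟩

theorem le_cl (A B : FinGraph) : le (cl A) (cl B) ↔ Hom A B := Iff.rfl

theorem le_refl' (a : GS) : le a a := by
  induction a using cl_ind with | _ A => ?_
  exact hom_refl A

theorem le_trans' (a b d : GS) (h : le a b) (h' : le b d) : le a d := by
  induction a using cl_ind with | _ A => ?_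
  induction b using cl_ind with | _ B => ?_
  induction d using cl_ind with | _ D => ?_
  exact hom_trans ((le_cl _ _).1 h) ((le_cl _ _).1 h')

theorem le_add' (a b d : GS) (h : le a b) : le (a + d) (b + d) := by
  induction a using cl_ind with | _ A => ?_
  induction b using cl_ind with | _ B => ?_
  induction d using cl_ind with | _ D => ?_
  exact hom_join ((le_cl _ _).1 h) (hom_refl D)

theorem le_mul' (a b d : GS) (h : le a b) : le (a * d) (b * d) := by
  induction a using cl_ind with | _ A => ?_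
  induction b using cl_ind with | _ B => ?_
  induction d using cl_ind with | _ D => ?_
  exact hom_disj ((le_cl _ _).1 h) (hom_refl D)

theorem le_zero' (a : GS) : le 0 a := by
  induction a using cl_ind with | _ A => ?_
  exact hom_mk (fun x => (no_vertex x).elim) fun p => (no_vertex p).elim

theorem le_one' (a : GS) (h : a ≠ 0) : le 1 a := by
  induction a using cl_ind with | _ A => ?_
  rcases isEmpty_or_nonempty A.V with hA | ⟨⟨x⟩⟩
  · refine (h ?_).elim
    rw [zero_def]
    exact cl_eq (hom_mk (fun x => hA.elim x) fun p => hA.elim p)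
      (hom_mk (fun x => (no_vertex x).elim) fun p => (no_vertex p).elim)
  · exact hom_mk (fun _ => x) fun p q h => (no_edge h).elim

theorem le_nat' (a : GS) : ∃ n : ℕ, le a n := by
  induction a using cl_ind with | _ A => ?_
  have := A.fin
  obtain ⟨n, ⟨e⟩⟩ := Finite.exists_equiv_fin A.V
  refine ⟨n, ?_⟩
  rw [← cl_complete]
  refine hom_mk e fun p q h => cadj.2 fun h2 => ?_
  rw [e.injective h2] at h
  exact A.G.irrefl h

theorem cast_le' (n m : ℕ) (h : le (n : GS) (m : GS)) : n ≤ m := by
  rw [← cl_complete, ← cl_complete] at h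
  obtain ⟨f, hf⟩ := hom_fun ((le_cl _ _).1 h)
  have h1 : Function.Injective (show Fin n → Fin m from f) := by
    intro a b hab
    by_contra hc
    exact cadj.1 (hf a b (cadj.2 hc)) hab
  simpa using Fintype.card_le_of_injective _ h1

/-- The abstract duality theorem (module fh:S1), as a proposition, for types in universe `1`. -/
def Duality : Prop := ∀ (S : Type 1) (_ : CommSemiring S) (le : S → S → Prop)
    (_ : ∀ a, le a a)
    (_ : ∀ a b d, le a b → le b d → le a d)
    (_ : ∀ a b d, le a b → le (a + d) (b + d)) (_ : ∀ a b d, le a b → le (a * d) (b * d))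
    (_ : ∀ a, le 0 a) (_ : ∀ a, a ≠ 0 → le 1 a) (_ : ∀ a, ∃ n : ℕ, le a n)
    (_ : ∀ n m : ℕ, le (n : S) (m : S) → n ≤ m) (G H : S) (lam : ℝ) (_ : 1 < lam)
    (_ : ∀ N M : ℕ, 1 ≤ N → (M : ℝ) ≤ lam ^ N → ¬ le (G ^ N) ((M : S) * H ^ N)),
    ∃ η : S → ℝ, (∀ a, 0 ≤ η a) ∧ η 1 = 1 ∧ (∀ a b, η (a + b) = η a + η b) ∧
      (∀ a b, η (a * b) = η a * η b) ∧ (∀ a b, le a b → η a ≤ η b) ∧ η H < η G

/-- the transfer to graphs -/
theorem transfer_of (dual : Duality) (G H : FinGraph) (lam : ℝ) (hlam : 1 < lam)
    (hno : ∀ N M : ℕ, 1 ≤ N → (M : ℝ) ≤ lam ^ N →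
      ¬ Hom (pw G N) (disj (complete M) (pw H N))) :
    ∃ η : FinGraph → ℝ, IsSemHom η ∧ η H < η G := by
  obtain ⟨η, h0, h1, h2, h3, h4, h5⟩ := dual GS inferInstance le le_refl' le_trans' le_add' le_mul'
    le_zero' le_one' le_nat' cast_le' (cl G) (cl H) lam hlam (by
      intro N M hN hM hle
      refine hno N M hN hM ?_
      rw [cl_pw, cl_pw, ← cl_complete, cl_mul] at hle
      exact hle)
  refine ⟨fun A => η (cl A), ⟨fun A => h0 _, h1, fun A B h => h4 _ _ h, fun A B => ?_,
    fun A B => ?_⟩, h5⟩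
  · exact h2 (cl A) (cl B)
  · exact h3 (cl A) (cl B)

end Pool.Agent.helper46.FH
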